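import Mathlib

/-!
# Project KB (helper242), MP_73700b_an

Project HB (no infinite-dimensional real Hilbert space has a point-finite covering by closed balls)
with weaker hypotheses: the Laguerre cells of a covering by balls are not point-finite, if only
finitely many balls contain `x` deeply. A *system* is a set `B` of pairs (centre, radius).
The proofs in this folder are copies of the proofs of project HB by helper186 (ACT), helper143
(BND), helper935 (CON), helper953 (STP), helper749 (GRD), helper865 (AWY), helper933 (BAI),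
helper707 (NRM), with the necessary changes.
-/

set_option autoImplicit false

open Metric Set Filter Topology

namespace Pool.Agent.N242.KW

universe u

variable {H : Type u} [NormedAddCommGroup H] [InnerProductSpace ℝ H]

/-- Minus the power of the point `x` with respect to the ball `b = (centre, radius)`. -/
def val (b : H × ℝ) (x : H) : ℝ := b.2 ^ 2 - ‖x - b.1‖ ^ 2

/-- The ball `b` of the system is active at `x`: it maximises `val · x`. -/
def Act (B : Set (H × ℝ)) (x : H) (b : H × ℝ) : Prop :=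
  b ∈ B ∧ ∀ b' ∈ B, val b' x ≤ val b x

/-- The system `B` of balls of positive radii has the following properties: at every point `x` the
maximum of `val · x` is attained by some and by finitely many balls, and it is not negative;
for `κ > 0` only finitely many balls have `val · x ≥ κ`. -/
structure PF (B : Set (H × ℝ)) : Prop where
  pos : ∀ b ∈ B, 0 < b.2
  act : ∀ x : H, ∃ b, Act B x b ∧ 0 ≤ val b x
  fin : ∀ x : H, {b | Act B x b}.Finite
  kfin : ∀ (x : H) (κ : ℝ), 0 < κ → {b | b ∈ B ∧ κ ≤ val b x}.Finite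

/-- The maximum of `val · x` over the system. -/
noncomputable def g (B : Set (H × ℝ)) (x : H) : ℝ := ⨆ b : B, val (b : H × ℝ) x

/-- (ACT) Elementary facts about active balls. -/
def S_ACT : Prop :=
  ∀ (H : Type u) [NormedAddCommGroup H] [InnerProductSpace ℝ H] (B : Set (H × ℝ)), PF B →
    (∀ x, ∃ b, Act B x b) ∧
    (∀ x b, Act B x b → val b x = g B x ∧ 0 ≤ val b x ∧ ‖x - b.1‖ ≤ b.2) ∧
    (∀ x, 0 ≤ g B x) ∧ (∀ b ∈ B, ∀ x, val b x ≤ g B x) ∧ (∀ x, {b | Act B x b}.Finite) ∧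
    (∀ x b, b ∈ B → val b x = g B x → Act B x b)

/-- (BND) The active balls are locally bounded. -/
def S_BND : Prop :=
  ∀ (H : Type u) [NormedAddCommGroup H] [InnerProductSpace ℝ H] [CompleteSpace H]
    (B : Set (H × ℝ)), PF B →
    ∀ x : H, ∃ ρ > 0, ∃ R : ℝ, ∀ y, ‖y - x‖ < ρ → ∀ b, Act B y b → ‖b.1‖ ≤ R ∧ b.2 ≤ R

/-- (CON) Continuity, and local finiteness where `g > 0`. -/
def S_CON : Prop :=
  ∀ (H : Type u) [NormedAddCommGroup H] [InnerProductSpace ℝ H] [CompleteSpace H]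
    (B : Set (H × ℝ)), PF B →
    Continuous (g B) ∧
    (∀ x, 0 < g B x → ∃ ρ > 0, ∀ y, ‖y - x‖ < ρ → ∀ b, Act B y b → Act B x b) ∧
    (∀ (u : ℕ → H) (x : H) (b : H × ℝ), Tendsto u atTop (𝓝 x) →
      (∀ᶠ n in atTop, Act B (u n) b) → Act B x b)

/-- (STP) One step in a direction `v` orthogonal to the centres of the active balls. -/
def S_STP : Prop :=
  ∀ (H : Type u) [NormedAddCommGroup H] [InnerProductSpace ℝ H] [CompleteSpace H]
    (B : Set (H × ℝ)), PF B → ∀ (x v : H) (T : ℝ), ‖v‖ = 1 → 0 ≤ T → T ^ 2 ≤ g B x →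
    (∀ b, Act B x b → inner ℝ v (b.1 - x) = 0) →
    ∃ t : ℝ, 0 ≤ t ∧ t ≤ T ∧ (∀ b, Act B x b → Act B (x + t • v) b) ∧
      g B (x + t • v) = g B x - t ^ 2 ∧
      (t = T ∨ (t < T ∧ ∃ b, Act B (x + t • v) b ∧ ¬ Act B x b))

/-- (GRD) From every point one reaches a zero of `g` without losing an active ball, by a move of
length `sqrt (g x)` orthogonal to any given finite-dimensional subspace. -/
def S_GRD : Prop :=
  ∀ (H : Type u) [NormedAddCommGroup H] [InnerProductSpace ℝ H] [CompleteSpace H]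
    (B : Set (H × ℝ)), ¬ FiniteDimensional ℝ H → PF B →
    ∀ (x : H) (V : Submodule ℝ H), FiniteDimensional ℝ V → 0 < g B x →
    ∃ p : H, g B p = 0 ∧ (∀ b, Act B x b → Act B p b) ∧ ‖p - x‖ ^ 2 = g B x ∧ p - x ∈ Vᗮ

/-- (AWY) Near every zero `p` of `g` there is a zero outside of all balls which contain `p`. -/
def S_AWY : Prop :=
  ∀ (H : Type u) [NormedAddCommGroup H] [InnerProductSpace ℝ H] [CompleteSpace H]
    (B : Set (H × ℝ)), ¬ FiniteDimensional ℝ H → PF B →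
    ∀ (p : H) (ρ : ℝ), 0 < ρ → g B p = 0 →
    ∃ z : H, g B z = 0 ∧ ‖z - p‖ < ρ ∧ ∀ b, Act B p b → b.2 < ‖z - b.1‖

/-- (BAI) Baire category in the closed set of the zeros of `g`. -/
def S_BAI : Prop :=
  ∀ (H : Type u) [NormedAddCommGroup H] [InnerProductSpace ℝ H] [CompleteSpace H]
    (B : Set (H × ℝ)), ¬ FiniteDimensional ℝ H → PF B →
    ∃ δ > 0, ∃ q : H, ∃ ρ > 0, g B q = 0 ∧
      ∀ p, g B p = 0 → ‖p - q‖ < ρ → ∀ ε > 0, ∃ z, g B z = 0 ∧ ‖z - p‖ < ε ∧
        ∃ b, Act B z b ∧ δ ≤ b.2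

/-- (NRM) Near `p` there are zeros `z` of `g` on balls of radius `≥ δ` whose radius vector is
almost orthogonal to any given finite-dimensional subspace. -/
def S_NRM : Prop :=
  ∀ (H : Type u) [NormedAddCommGroup H] [InnerProductSpace ℝ H] [CompleteSpace H]
    (B : Set (H × ℝ)), ¬ FiniteDimensional ℝ H → PF B →
    ∀ (δ : ℝ) (p : H) (ρ : ℝ), 0 < δ → 0 < ρ → g B p = 0 →
    (∀ p', g B p' = 0 → ‖p' - p‖ < ρ → ∀ ε > 0, ∃ z, g B z = 0 ∧ ‖z - p'‖ < ε ∧
        ∃ b, Act B z b ∧ δ ≤ b.2) →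
    ∃ R : ℝ, ∀ (V : Submodule ℝ H), FiniteDimensional ℝ V → ∀ ε > 0,
      ∃ z b, g B z = 0 ∧ ‖z - p‖ < ε ∧ Act B z b ∧ ‖z - b.1‖ = b.2 ∧ δ ≤ b.2 ∧ b.2 ≤ R ∧
        ∀ w ∈ V, |inner ℝ w (b.1 - z)| ≤ ε * ‖w‖

/-- (EXT) Near `p` there is a point with `g > 0` and more active balls. -/
def S_EXT : Prop :=
  ∀ (H : Type u) [NormedAddCommGroup H] [InnerProductSpace ℝ H] [CompleteSpace H]
    (B : Set (H × ℝ)), ¬ FiniteDimensional ℝ H → PF B →
    ∀ (δ : ℝ) (x p : H) (ρ : ℝ), 0 < δ → 0 < ρ → g B p = 0 → 0 < g B x →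
    (∀ b, Act B x b → Act B p b) →
    (∀ p', g B p' = 0 → ‖p' - p‖ < ρ → ∀ ε > 0, ∃ z, g B z = 0 ∧ ‖z - p'‖ < ε ∧
        ∃ b, Act B z b ∧ δ ≤ b.2) →
    ∀ ε > 0, ∃ x' : H, 0 < g B x' ∧ g B x' < ε ∧ ‖x' - p‖ < ε ∧
      (∀ b, Act B x b → Act B x' b) ∧ ∃ b, Act B x' b ∧ ¬ Act B x b

/-- (FIN) The theorem. -/
def S_FIN : Prop :=
  ∀ (H : Type u) [NormedAddCommGroup H] [InnerProductSpace ℝ H] [CompleteSpace H]
    (B : Set (H × ℝ)), ¬ FiniteDimensional ℝ H → ¬ PF B

end Pool.Agent.N242.KW
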