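import Mathlib
import Pool.Agent.N242.KW.Stm

/-!
# Project HB: elementary facts about active balls
-/

set_option autoImplicit false

open Metric Set Filter Topology Pool.Agent.N242.KW

namespace Pool.Agent.N242.KW.P186

universe u

variable {H : Type u} [NormedAddCommGroup H] [InnerProductSpace ℝ H]

theorem val_nonneg_iff {B : Set (H × ℝ)} (hB : PF B) {b : H × ℝ} (hb : b ∈ B) (x : H) :
    0 ≤ val b x ↔ ‖x - b.1‖ ≤ b.2 := by
  have h := hB.pos b hb
  have h0 := norm_nonneg (x - b.1)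
  unfold val
  rw [sub_nonneg]
  exact ⟨fun hh => by nlinarith, fun hh => by nlinarith⟩

theorem exists_act {B : Set (H × ℝ)} (hB : PF B) (x : H) : ∃ b, Act B x b ∧ 0 ≤ val b x :=
  hB.act x

theorem g_eq {B : Set (H × ℝ)} {x : H} {b : H × ℝ} (hb : Act B x b) : val b x = g B x := by
  have hne : Nonempty B := ⟨⟨b, hb.1⟩⟩
  refine le_antisymm ?_ ?_
  · exact le_ciSup (f := fun c : B => val (c : H × ℝ) x)
      ⟨val b x, by rintro _ ⟨c, rfl⟩; exact hb.2 c c.2⟩ ⟨b, hb.1⟩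
  · exact ciSup_le fun c => hb.2 c c.2

theorem act_nonneg {B : Set (H × ℝ)} (hB : PF B) {x : H} {b : H × ℝ} (hb : Act B x b) :
    0 ≤ val b x := by
  obtain ⟨b', hb', h⟩ := exists_act hB x
  exact h.trans (hb.2 b' hb'.1)

theorem t_ACT : S_ACT.{u} := by
  intro H _ _ B hB
  have hle : ∀ b ∈ B, ∀ x, val b x ≤ g B x := by
    intro b hb x
    obtain ⟨b', hb', _⟩ := exists_act hB x
    rw [← g_eq hb']
    exact hb'.2 b hb
  refine ⟨fun x => ?_, fun x b hb => ⟨g_eq hb, act_nonneg hB hb, ?_⟩, fun x => ?_, hle,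
    fun x => ?_, fun x b hb h => ⟨hb, fun b' hb' => ?_⟩⟩
  · obtain ⟨b, hb, _⟩ := exists_act hB x
    exact ⟨b, hb⟩
  · exact (val_nonneg_iff hB hb.1 x).1 (act_nonneg hB hb)
  · obtain ⟨b, hb, h⟩ := exists_act hB x
    rw [← g_eq hb]
    exact h
  · exact hB.fin x
  · rw [h]
    exact hle b' hb' x

end Pool.Agent.N242.KW.P186
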