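import Pool.Agent.N242.KW.Stm

/-!
HB/BAI (helper933 for project HB of helper242): Baire category in the set of the zeros of `g`.
-/

set_option autoImplicit false

open Metric Set Filter Topology

namespace Pool.Agent.N242.KW.P933

open Pool.Agent.N242.KW

universe u

theorem t_BAI (h1 : S_ACT.{u}) (h2 : S_CON.{u}) (h3 : S_GRD.{u}) : S_BAI.{u} := by
  intro H _ _ _ B hinf hB
  obtain ⟨hex, hprop, hg0, hle, hfin, hback⟩ := h1 H B hB
  obtain ⟨hcont, -, -⟩ := h2 H B hB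
  have hcl : IsClosed {z : H | g B z = 0} := isClosed_eq hcont continuous_const
  have hne : Nonempty {z : H | g B z = 0} := by
    rcases (hg0 0).eq_or_lt with h | h
    · exact ⟨⟨0, h.symm⟩⟩
    · obtain ⟨p, hp, -⟩ := h3 H B hinf hB 0 ⊥ inferInstance h
      exact ⟨⟨p, hp⟩⟩
  have hcomp : CompleteSpace {z : H | g B z = 0} := hcl.completeSpace_coe
  let f : ℕ → Set {z : H | g B z = 0} := fun n =>
    closure {z | ∃ b, Act B (z : H) b ∧ 1 / ((n : ℝ) + 1) ≤ b.2}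
  have hU : ⋃ n, f n = univ := by
    rw [eq_univ_iff_forall]
    intro z
    obtain ⟨b, hb⟩ := hex (z : H)
    obtain ⟨n, hn⟩ := exists_nat_one_div_lt (hB.pos b hb.1)
    exact mem_iUnion.2 ⟨n, subset_closure ⟨b, hb, hn.le⟩⟩
  obtain ⟨n, q, hq⟩ := nonempty_interior_of_iUnion_of_closed (f := f)
    (fun n => isClosed_closure) hU
  rw [mem_interior_iff_mem_nhds, Metric.mem_nhds_iff] at hq
  obtain ⟨ρ, hρ, hball⟩ := hq
  refine ⟨1 / ((n : ℝ) + 1), by positivity, q, ρ, hρ, q.2, ?_⟩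
  intro p hp hpq ε hε
  have h4 : (⟨p, hp⟩ : {z : H | g B z = 0}) ∈ f n := hball (by
    rw [Metric.mem_ball, Subtype.dist_eq, dist_eq_norm]
    exact hpq)
  obtain ⟨z, ⟨b, hb, hbn⟩, hz⟩ := Metric.mem_closure_iff.1 h4 ε hε
  refine ⟨z, z.2, ?_, b, hb, hbn⟩
  rw [Subtype.dist_eq, dist_eq_norm, norm_sub_rev] at hz
  exact hz

end Pool.Agent.N242.KW.P933
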