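import Mathlib
import Pool.Agent.N242.KW.Stm

/-!
# HB/BND (helper143): the active balls are locally bounded
-/

set_option autoImplicit false

open Metric Set Filter Topology
open Pool.Agent.N242.KW

namespace Pool.Agent.N242.KW.P143

universe u

/-- The affine function `val b y + ‖y‖²`. -/
theorem l_eq {H : Type u} [NormedAddCommGroup H] [InnerProductSpace ℝ H] (b : H × ℝ) (y : H) :
    val b y + ‖y‖ ^ 2 = b.2 ^ 2 - ‖b.1‖ ^ 2 + 2 * inner ℝ b.1 y := by
  unfold val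
  rw [@norm_sub_sq_real]
  rw [real_inner_comm]
  ring

theorem t_BND (h : S_ACT.{u}) : S_BND.{u} := by
  intro H _ _ _ B hB x
  obtain ⟨h1, h2, h3, h4, h5, h6⟩ := h H B hB
  -- Baire
  have hcov : (⋃ m : ℕ, {y : H | ∀ b ∈ B, val b y + ‖y‖ ^ 2 ≤ (m : ℝ)}) = Set.univ := by
    refine Set.eq_univ_of_forall fun y => ?_
    obtain ⟨m, hm⟩ := exists_nat_ge (g B y + ‖y‖ ^ 2)
    refine Set.mem_iUnion.2 ⟨m, fun b hb => ?_⟩
    have := h4 b hb y
    linarith
  have hclosed : ∀ m : ℕ, IsClosed {y : H | ∀ b ∈ B, val b y + ‖y‖ ^ 2 ≤ (m : ℝ)} := by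
    intro m
    have : {y : H | ∀ b ∈ B, val b y + ‖y‖ ^ 2 ≤ (m : ℝ)}
        = ⋂ b ∈ B, {y : H | val b y + ‖y‖ ^ 2 ≤ (m : ℝ)} := by
      ext y; simp
    rw [this]
    refine isClosed_biInter fun b _ => isClosed_le ?_ continuous_const
    unfold val
    fun_prop
  obtain ⟨m, hm⟩ := nonempty_interior_of_iUnion_of_closed hclosed hcov
  obtain ⟨y0, hy0⟩ := hm
  obtain ⟨s, hs, hball⟩ := Metric.isOpen_iff.1 isOpen_interior y0 hy0
  have hball' : ∀ y : H, ‖y - y0‖ < s → ∀ b ∈ B, val b y + ‖y‖ ^ 2 ≤ (m : ℝ) := by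
    intro y hy
    exact interior_subset (hball (by rwa [mem_ball, dist_eq_norm]))
  set u : H := (2 : ℝ) • x - y0 with hu
  set M : ℝ := max (g B u + ‖u‖ ^ 2) m with hM
  have hM0 : 0 ≤ M := le_trans (Nat.cast_nonneg m) (le_max_right _ _)
  have hkey : ∀ z : H, ‖z - x‖ < s / 2 → ∀ b ∈ B, val b z + ‖z‖ ^ 2 ≤ M := by
    intro z hz b hb
    have hy : ‖((2 : ℝ) • z - u) - y0‖ < s := by
      have : ((2 : ℝ) • z - u) - y0 = (2 : ℝ) • (z - x) := by
        rw [hu, smul_sub]; abel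
      rw [this, norm_smul]
      simp only [Real.norm_ofNat]
      linarith
    have e1 := hball' _ hy b hb
    have e2 := h4 b hb u
    rw [l_eq] at e1 ⊢
    have e3 : val b u + ‖u‖ ^ 2 ≤ M := le_trans (by linarith) (le_max_left _ _)
    have e4 : (m : ℝ) ≤ M := le_max_right _ _
    rw [l_eq] at e3
    rw [inner_sub_right, inner_smul_right] at e1
    linarith
  refine ⟨s / 4, by positivity, max (2 * M / s) (M + (‖x‖ + s / 4 + 2 * M / s) ^ 2 + 1), ?_⟩
  intro y hy b hb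
  obtain ⟨k1, k2, k3⟩ := h2 y b hb
  have hbB : b ∈ B := hb.1
  have hl0 : 0 ≤ val b y + ‖y‖ ^ 2 := by positivity
  have hc : ‖b.1‖ ≤ 2 * M / s := by
    by_cases hb1 : b.1 = 0
    · rw [hb1, norm_zero]; positivity
    · have hn : 0 < ‖b.1‖ := norm_pos_iff.2 hb1
      have hyz : ‖(y + (s / 4 / ‖b.1‖) • b.1) - x‖ < s / 2 := by
        have : (y + (s / 4 / ‖b.1‖) • b.1) - x = (y - x) + (s / 4 / ‖b.1‖) • b.1 := by abel
        rw [this]
        refine lt_of_le_of_lt (norm_add_le _ _) ?_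
        rw [norm_smul, Real.norm_of_nonneg (by positivity), div_mul_cancel₀ _ hn.ne']
        linarith
      have e1 := hkey _ hyz b hbB
      rw [l_eq, inner_add_right, inner_smul_right, real_inner_self_eq_norm_sq] at e1
      rw [l_eq] at hl0
      have e2 : s / 4 / ‖b.1‖ * ‖b.1‖ ^ 2 = s / 4 * ‖b.1‖ := by
        field_simp
      rw [e2] at e1
      rw [le_div_iff₀ hs]
      linarith
  have hr : b.2 ≤ M + (‖x‖ + s / 4 + 2 * M / s) ^ 2 + 1 := by
    have hpos := hB.pos b hbB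
    have hyx : ‖y‖ ≤ ‖x‖ + s / 4 := by
      have : y = (y - x) + x := by abel
      calc ‖y‖ = ‖(y - x) + x‖ := by rw [← this]
        _ ≤ ‖y - x‖ + ‖x‖ := norm_add_le _ _
        _ ≤ ‖x‖ + s / 4 := by linarith
    have hyb : ‖y - b.1‖ ≤ ‖x‖ + s / 4 + 2 * M / s := by
      refine le_trans (norm_sub_le _ _) ?_
      linarith
    have hval : val b y ≤ M := by
      have e1 := hkey y (by linarith) b hbB
      have : 0 ≤ ‖y‖ ^ 2 := by positivity
      linarith
    have hsq : b.2 ^ 2 ≤ M + (‖x‖ + s / 4 + 2 * M / s) ^ 2 := by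
      have e1 : b.2 ^ 2 = val b y + ‖y - b.1‖ ^ 2 := by unfold val; ring
      have e2 : ‖y - b.1‖ ^ 2 ≤ (‖x‖ + s / 4 + 2 * M / s) ^ 2 :=
        pow_le_pow_left₀ (norm_nonneg _) hyb 2
      linarith
    nlinarith [sq_nonneg (b.2 - 1)]
  exact ⟨le_trans hc (le_max_left _ _), le_trans hr (le_max_right _ _)⟩

end Pool.Agent.N242.KW.P143
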