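import Pool.Agent.N242.KW.Stm

/-!
HB/CON (project of helper242, written by helper935): continuity of `g` and local finiteness.
-/

set_option autoImplicit false

open Metric Set Filter Topology Pool.Agent.N242.KW

namespace Pool.Agent.N242.KW.P935

universe u

lemma val_cont {H : Type u} [NormedAddCommGroup H] [InnerProductSpace ℝ H] (b : H × ℝ) :
    Continuous (val b) := by
  unfold val
  fun_prop

theorem t_CON (h1 : S_ACT.{u}) (h2 : S_BND.{u}) : S_CON.{u} := by
  intro H _ _ _ B hB
  obtain ⟨aex, aval, -, ale, -, aeq⟩ := h1 H B hB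
  -- the key inequality
  have key : ∀ x : H, ∃ ρ > 0, ∃ C : ℝ, ∀ y, ‖y - x‖ < ρ → ∀ b, Act B y b →
      g B y ≤ val b x + C * ‖y - x‖ := by
    intro x
    obtain ⟨ρ, hρ, R, hR⟩ := h2 H B hB x
    refine ⟨min ρ 1, lt_min hρ one_pos, 2 * ‖x‖ + 1 + 2 * R, ?_⟩
    intro y hy b hb
    have hy1 : ‖y - x‖ < ρ := hy.trans_le (min_le_left _ _)
    have hy2 : ‖y - x‖ < 1 := hy.trans_le (min_le_right _ _)
    obtain ⟨hb1, -⟩ := hR y hy1 b hb
    rw [← (aval y b hb).1]
    have e1 : ‖x - b.1‖ ≤ ‖x‖ + R := (norm_sub_le _ _).trans (by linarith)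
    have e2 : ‖y‖ ≤ ‖x‖ + 1 := by
      have : ‖y‖ ≤ ‖y - x‖ + ‖x‖ := by
        have := norm_add_le (y - x) x
        rwa [sub_add_cancel] at this
      linarith
    have e3 : ‖y - b.1‖ ≤ ‖x‖ + 1 + R := (norm_sub_le _ _).trans (by linarith)
    have e4 : ‖x - b.1‖ - ‖y - b.1‖ ≤ ‖y - x‖ := by
      have := norm_sub_norm_le (x - b.1) (y - b.1)
      have h : x - b.1 - (y - b.1) = -(y - x) := by abel
      rw [h, norm_neg] at this
      exact this
    unfold val
    have n1 := norm_nonneg (x - b.1)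
    have n2 := norm_nonneg (y - b.1)
    have n3 := norm_nonneg (y - x)
    nlinarith [mul_le_mul_of_nonneg_right e4 (add_nonneg n1 n2)]
  have hcont : Continuous (g B) := by
    rw [continuous_iff_continuousAt]
    intro x
    obtain ⟨ρ, hρ, C, hC⟩ := key x
    obtain ⟨a, ha⟩ := aex x
    have hlow : Tendsto (fun y => val a y) (𝓝 x) (𝓝 (g B x)) := by
      rw [← (aval x a ha).1]
      exact (val_cont a).tendsto x
    have hup : Tendsto (fun y => g B x + C * ‖y - x‖) (𝓝 x) (𝓝 (g B x)) := by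
      have : Continuous fun y => g B x + C * ‖y - x‖ := by fun_prop
      have h := this.tendsto x
      simpa using h
    refine tendsto_of_tendsto_of_tendsto_of_le_of_le' hlow hup
      (Eventually.of_forall fun y => ale a ha.1 y) ?_
    filter_upwards [Metric.ball_mem_nhds x hρ] with y hy
    rw [Metric.mem_ball, dist_eq_norm] at hy
    obtain ⟨b, hb⟩ := aex y
    have := hC y hy b hb
    linarith [ale b hb.1 x]
  refine ⟨hcont, ?_, ?_⟩
  · intro x hx
    obtain ⟨ρ, hρ, C, hC⟩ := key x
    obtain ⟨m, hm0, hmg, hm⟩ : ∃ m, g B x / 2 ≤ m ∧ m < g B x ∧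
        ∀ b ∈ {b | b ∈ B ∧ g B x / 2 ≤ val b x}, ¬ Act B x b → val b x ≤ m := by
      have h3 : ∀ᶠ m in 𝓝[<] (g B x), ∀ b ∈ {b | b ∈ B ∧ g B x / 2 ≤ val b x},
          ¬ Act B x b → val b x ≤ m := by
        rw [Filter.eventually_all_finite (hB.kfin x (g B x / 2) (by positivity))]
        intro b hb
        by_cases hact : Act B x b
        · exact Eventually.of_forall fun m h => absurd hact h
        have hlt : val b x < g B x := by
          refine lt_of_le_of_ne (ale b hb.1 x) fun h => hact (aeq x b hb.1 h)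
        filter_upwards [Ioo_mem_nhdsLT hlt] with m hm _
        exact hm.1.le
      have hx2 : g B x / 2 < g B x := by linarith
      obtain ⟨m, hm, hm'⟩ := (h3.and (Ioo_mem_nhdsLT hx2)).exists
      exact ⟨m, hm'.1.le, hm'.2, hm⟩
    have h4 : ∀ᶠ y in 𝓝 x, m < g B y - C * ‖y - x‖ := by
      have : Continuous fun y => g B y - C * ‖y - x‖ := by fun_prop
      have h := this.tendsto x
      simp only [sub_self, norm_zero, mul_zero, sub_zero] at h
      exact h.eventually (lt_mem_nhds hmg)
    obtain ⟨ρ', hρ', h5⟩ := Metric.eventually_nhds_iff.1 h4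
    refine ⟨min ρ ρ', lt_min hρ hρ', ?_⟩
    intro y hy b hb
    have hy1 : ‖y - x‖ < ρ := hy.trans_le (min_le_left _ _)
    have hy2 : ‖y - x‖ < ρ' := hy.trans_le (min_le_right _ _)
    have h6 := hC y hy1 b hb
    have h7 := h5 (y := y) (by rw [dist_eq_norm]; exact hy2)
    by_contra hact
    have h8 : m < val b x := by linarith
    exact absurd (hm b ⟨hb.1, by linarith⟩ hact) (not_le.2 h8)
  · intro v x b hv hev
    obtain ⟨n, hn⟩ := hev.exists
    refine ⟨hn.1, ?_⟩
    intro b' hb'
    refine le_of_tendsto_of_tendsto (((val_cont b').tendsto x).comp hv)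
      (((val_cont b).tendsto x).comp hv) ?_
    filter_upwards [hev] with k hk
    exact hk.2 b' hb'

end Pool.Agent.N242.KW.P935
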