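import Mathlib
import Pool.Agent.N242.KW.Stm

set_option autoImplicit false

open Metric Set Filter Topology

namespace Pool.Agent.N242.KW

universe u

variable {H : Type u} [NormedAddCommGroup H] [InnerProductSpace ℝ H]

/-- `val b` along a segment. -/
theorem val_seg (b : H × ℝ) (p x : H) (s : ℝ) :
    val b (p + s • (x - p)) = s * val b x + (1 - s) * val b p + s * (1 - s) * ‖x - p‖ ^ 2 := by
  unfold val
  have h1 : p + s • (x - p) - b.1 = s • (x - b.1) + (1 - s) • (p - b.1) := by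
    module
  have h2 : x - p = (x - b.1) - (p - b.1) := by abel
  rw [h1, h2]
  generalize x - b.1 = a
  generalize p - b.1 = c
  have e1 : ‖s • a + (1 - s) • c‖ ^ 2 = s ^ 2 * ‖a‖ ^ 2 + 2 * (s * (1 - s)) * inner ℝ a c +
      (1 - s) ^ 2 * ‖c‖ ^ 2 := by
    rw [norm_add_sq_real, norm_smul, norm_smul, mul_pow, mul_pow, real_inner_smul_left,
      real_inner_smul_right, Real.norm_eq_abs, Real.norm_eq_abs, sq_abs, sq_abs]
    ring
  have e2 : ‖a - c‖ ^ 2 = ‖a‖ ^ 2 - 2 * inner ℝ a c + ‖c‖ ^ 2 := norm_sub_sq_real a c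
  rw [e1, e2]
  ring

/-- The difference of two values is affine. -/
theorem act_seg (B : Set (H × ℝ)) {b : H × ℝ} {p x : H} (hp : Act B p b) (hx : Act B x b)
    {s : ℝ} (h0 : 0 ≤ s) (h1 : s ≤ 1) : Act B (p + s • (x - p)) b := by
  refine ⟨hp.1, fun b' hb' => ?_⟩
  rw [val_seg, val_seg]
  have e1 := mul_le_mul_of_nonneg_left (hx.2 b' hb') h0
  have e2 := mul_le_mul_of_nonneg_left (hp.2 b' hb') (sub_nonneg.2 h1)
  linarith

theorem t_EXT (h1 : S_ACT.{u}) (h3 : S_STP.{u}) (h4 : S_NRM.{u}) : S_EXT.{u} := by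
  intro H _ _ _ B hinf hB δ x p ρ hδ hρ hgp hgx hA hD ε hε
  obtain ⟨hex, hact, hg0, hle, hfin, hlast⟩ := h1 H B hB
  obtain ⟨R, hR⟩ := h4 H B hinf hB δ p ρ hδ hρ hgp hD
  set D : ℝ := ‖x - p‖ with hDdef
  have hD0 : 0 ≤ D := norm_nonneg _
  set G : ℝ := g B x with hG
  set M : ℝ := (G + D ^ 2 + 1) / δ with hM
  have hM0 : 0 < M := by positivity
  -- choice of sigma
  obtain ⟨σ, hσ0, hσ1, hσ2, hσ3, hσ4⟩ : ∃ σ : ℝ, 0 < σ ∧ σ < 1 ∧ σ * M ^ 2 < G ∧
      σ * (D + M) < ε ∧ σ * (G + D ^ 2) < ε := by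
    refine ⟨min (1 / 2) (min (G / (2 * M ^ 2)) (min (ε / (2 * (D + M))) (ε / (2 * (G + D ^ 2))))),
      ?_, ?_, ?_, ?_, ?_⟩
    · have : 0 < G + D ^ 2 := by positivity
      positivity
    · exact lt_of_le_of_lt (min_le_left _ _) (by norm_num)
    · have e := (min_le_right (1 / 2 : ℝ) (min (G / (2 * M ^ 2)) (min (ε / (2 * (D + M)))
        (ε / (2 * (G + D ^ 2)))))).trans (min_le_left _ _)
      calc _ ≤ G / (2 * M ^ 2) * M ^ 2 := mul_le_mul_of_nonneg_right e (by positivity)
        _ = G / 2 := by field_simp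
        _ < G := by linarith
    · have e := ((min_le_right (1 / 2 : ℝ) (min (G / (2 * M ^ 2)) (min (ε / (2 * (D + M)))
        (ε / (2 * (G + D ^ 2)))))).trans (min_le_right _ _)).trans (min_le_left _ _)
      calc _ ≤ ε / (2 * (D + M)) * (D + M) := mul_le_mul_of_nonneg_right e (by positivity)
        _ = ε / 2 := by field_simp
        _ < ε := by linarith
    · have e := ((min_le_right (1 / 2 : ℝ) (min (G / (2 * M ^ 2)) (min (ε / (2 * (D + M)))
        (ε / (2 * (G + D ^ 2)))))).trans (min_le_right _ _)).trans (min_le_right _ _)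
      have : 0 < G + D ^ 2 := by positivity
      calc _ ≤ ε / (2 * (G + D ^ 2)) * (G + D ^ 2) := mul_le_mul_of_nonneg_right e (by positivity)
        _ = ε / 2 := by field_simp
        _ < ε := by linarith
  set c : H := p + σ • (x - p) with hc
  obtain ⟨b₀, hb₀⟩ := hex x
  have hActc : ∀ b, Act B x b → Act B c b := fun b hb =>
    act_seg B (hA b hb) hb hσ0.le hσ1.le
  have hvx : ∀ b, Act B x b → val b x = G := fun b hb => (hact x b hb).1
  have hvp : ∀ b, Act B p b → val b p = 0 := fun b hb => by rw [(hact p b hb).1, hgp]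
  have hgc : g B c = σ * G + σ * (1 - σ) * D ^ 2 := by
    rw [← (hact c b₀ (hActc b₀ hb₀)).1, hc, val_seg, hvx b₀ hb₀, hvp b₀ (hA b₀ hb₀)]
    ring
  have hgc1 : g B c ≤ σ * (G + D ^ 2) := by
    rw [hgc]
    nlinarith [mul_nonneg hσ0.le hσ0.le, sq_nonneg D, mul_nonneg (mul_nonneg hσ0.le hσ0.le)
      (sq_nonneg D)]
  have hgc2 : σ * G ≤ g B c := by
    rw [hgc]
    have : 0 ≤ σ * (1 - σ) * D ^ 2 :=
      mul_nonneg (mul_nonneg hσ0.le (by linarith)) (sq_nonneg D)
    linarith
  have hgcpos : 0 < g B c := lt_of_lt_of_le (mul_pos hσ0 hgx) hgc2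
  have hcp : ‖c - p‖ = σ * D := by
    rw [hc, add_sub_cancel_left, norm_smul, Real.norm_eq_abs, abs_of_pos hσ0]
  by_cases hnew : ∃ b, Act B c b ∧ ¬ Act B x b
  · refine ⟨c, hgcpos, lt_of_le_of_lt hgc1 hσ4, ?_, hActc, hnew⟩
    rw [hcp]
    refine lt_of_le_of_lt ?_ hσ3
    exact mul_le_mul_of_nonneg_left (by linarith) hσ0.le
  push Not at hnew
  set T : ℝ := σ * M with hT
  have hT0 : 0 < T := mul_pos hσ0 hM0
  have hT2 : T ^ 2 < g B c := by
    refine lt_of_lt_of_le ?_ hgc2
    rw [hT, mul_pow, sq σ, mul_assoc]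
    exact mul_lt_mul_of_pos_left hσ2 hσ0
  -- finite dimensional subspace
  set S : Set H := insert (x - p) ((fun b : H × ℝ => b.1 - c) '' {b | Act B c b}) with hS
  have hSfin : S.Finite := ((hfin c).image _).insert _
  set V : Submodule ℝ H := Submodule.span ℝ S with hV
  have hVfin : FiniteDimensional ℝ V := FiniteDimensional.span_of_finite ℝ hSfin
  -- choice of eps
  have hslack : g B c < 2 * T * δ - (σ * D) ^ 2 := by
    have e1 : T * δ = σ * (G + D ^ 2 + 1) := by
      rw [hT, hM]; field_simp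
    have e2 : (σ * D) ^ 2 ≤ σ * D ^ 2 := by
      rw [mul_pow, sq σ, mul_assoc]
      have := mul_nonneg hσ0.le (sq_nonneg D)
      nlinarith
    have e3 : 0 ≤ σ * (G + D ^ 2) := by positivity
    nlinarith
  obtain ⟨η, hη0, hη1, hη2⟩ : ∃ η : ℝ, 0 < η ∧ η < δ ∧
      g B c < 2 * T * (δ - η) - (σ * D + η) ^ 2 - 2 * T * η - 2 * (σ * (η * D) + η * R) := by
    have hcont : Tendsto (fun η : ℝ => 2 * T * (δ - η) - (σ * D + η) ^ 2 - 2 * T * η -
        2 * (σ * (η * D) + η * R)) (𝓝[>] 0) (𝓝 (2 * T * δ - (σ * D) ^ 2)) := by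
      have : Continuous (fun η : ℝ => 2 * T * (δ - η) - (σ * D + η) ^ 2 - 2 * T * η -
        2 * (σ * (η * D) + η * R)) := by fun_prop
      have h := (this.tendsto 0).mono_left (nhdsWithin_le_nhds (s := Ioi (0 : ℝ)))
      simpa using h
    have h5 := hcont.eventually (lt_mem_nhds hslack)
    have h6 : ∀ᶠ η : ℝ in 𝓝[>] 0, η < δ := by
      filter_upwards [Ioo_mem_nhdsGT hδ] with η hη using hη.2
    have h7 : ∀ᶠ η : ℝ in 𝓝[>] 0, 0 < η := eventually_mem_nhdsWithin
    obtain ⟨η, h8, h9, h10⟩ := (h5.and (h6.and h7)).exists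
    exact ⟨η, h10, h9, h8⟩
  obtain ⟨z, b, hgz, hzp, hzb, hzr, hδb, hbR, hperp⟩ := hR V hVfin η hη0
  -- the direction
  set n : H := b.1 - z with hn
  have hnn : ‖n‖ = b.2 := by rw [hn, norm_sub_rev, hzr]
  have : V.HasOrthogonalProjection := inferInstance
  set P : H := V.starProjection n with hP
  have hPV : P ∈ V := by rw [hP]; exact Submodule.starProjection_apply_mem V n
  have hPn : ‖P‖ ≤ η := by
    have e1 : inner ℝ P n = ‖P‖ ^ 2 := by
      have e2 : inner ℝ P (n - P) = 0 := by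
        have := Submodule.sub_starProjection_mem_orthogonal (K := V) n
        exact (Submodule.mem_orthogonal V _).1 this P hPV
      rw [inner_sub_right, sub_eq_zero] at e2
      rw [e2, real_inner_self_eq_norm_sq]
    have e3 := hperp P hPV
    rw [e1, abs_of_nonneg (sq_nonneg _)] at e3
    by_contra h
    push Not at h
    have : 0 < ‖P‖ := lt_trans hη0 h
    nlinarith
  set m : H := n - P with hm
  have hmV : ∀ w ∈ V, inner ℝ w m = 0 := by
    intro w hw
    have := Submodule.sub_starProjection_mem_orthogonal (K := V) n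
    exact (Submodule.mem_orthogonal V _).1 this w hw
  have hmn : b.2 - η ≤ ‖m‖ := by
    have := norm_sub_norm_le n P
    rw [hnn] at this
    linarith
  have hm0 : 0 < ‖m‖ := by linarith
  set v : H := ‖m‖⁻¹ • m with hv
  have hv1 : ‖v‖ = 1 := by
    rw [hv, norm_smul, norm_inv, norm_norm, inv_mul_cancel₀ hm0.ne']
  have hvV : ∀ w ∈ V, inner ℝ v w = 0 := by
    intro w hw
    rw [real_inner_comm, hv, real_inner_smul_right, hmV w hw, mul_zero]
  have hvn : inner ℝ v n = ‖m‖ := by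
    have : n = m + P := by rw [hm]; abel
    rw [this, inner_add_right, hvV P hPV, add_zero, hv, real_inner_smul_left,
      real_inner_self_eq_norm_sq]
    field_simp
  -- value at c + T v
  have hval : g B c - T ^ 2 < val b (c + T • v) := by
    have e0 : c + T • v - b.1 = (c - z) + T • v - n := by rw [hn]; abel
    have e1 : c - z = σ • (x - p) + (p - z) := by rw [hc]; abel
    have hxpV : x - p ∈ V := Submodule.subset_span (mem_insert _ _)
    have e2 : inner ℝ (c - z) v = inner ℝ (p - z) v := by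
      rw [e1, inner_add_left, real_inner_smul_left, real_inner_comm, hvV _ hxpV]; ring
    have e3 : |inner ℝ (p - z) v| ≤ η := by
      refine (abs_real_inner_le_norm _ _).trans ?_
      rw [hv1, mul_one, norm_sub_rev]; exact hzp.le
    have e4 : |inner ℝ (p - z) n| ≤ η * R := by
      refine (abs_real_inner_le_norm _ _).trans ?_
      rw [hnn, norm_sub_rev]
      exact mul_le_mul hzp.le hbR (by linarith) hη0.le
    have e5 : |inner ℝ (x - p) n| ≤ η * D := hperp _ hxpV
    have e6 : inner ℝ (c - z) n = σ * inner ℝ (x - p) n + inner ℝ (p - z) n := by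
      rw [e1, inner_add_left, real_inner_smul_left]
    have e7 : ‖c - z‖ ≤ σ * D + η := by
      have : c - z = (c - p) + (p - z) := by abel
      rw [this]
      refine (norm_add_le _ _).trans ?_
      rw [hcp, norm_sub_rev p z]
      linarith
    have e8 : ‖c - z‖ ^ 2 ≤ (σ * D + η) ^ 2 := by gcongr
    have e9 : ‖(c - z) + T • v - n‖ ^ 2 = ‖c - z‖ ^ 2 + 2 * T * inner ℝ (c - z) v + T ^ 2 -
        2 * inner ℝ (c - z) n - 2 * T * ‖m‖ + b.2 ^ 2 := by
      rw [norm_sub_sq_real, norm_add_sq_real, norm_smul, hv1, mul_one, Real.norm_eq_abs, sq_abs,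
        inner_add_left, real_inner_smul_left, real_inner_smul_right, hvn, hnn]
      ring
    unfold val
    rw [e0, e9, e2, e6]
    have a1 := abs_le.1 e3
    have a2 := abs_le.1 e4
    have a3 := abs_le.1 e5
    have a4 : σ * inner ℝ (x - p) n ≥ -(σ * (η * D)) := by
      have := mul_le_mul_of_nonneg_left a3.1 hσ0.le
      linarith
    have a5 : T * ‖m‖ ≥ T * (δ - η) := mul_le_mul_of_nonneg_left (by linarith) hT0.le
    have a6 : T * inner ℝ (p - z) v ≤ T * η := mul_le_mul_of_nonneg_left a1.2 hT0.le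
    generalize inner ℝ (p - z) v = I1 at *
    generalize inner ℝ (p - z) n = I2 at *
    generalize inner ℝ (x - p) n = I3 at *
    generalize ‖m‖ = mm at *
    generalize ‖c - z‖ = cz at *
    generalize g B c = gc at *
    linarith
  obtain ⟨t, ht0, htT, hkeep, hgt, halt⟩ := h3 H B hB c v T hv1 hT0.le hT2.le (by
    intro b' hb'
    exact hvV _ (Submodule.subset_span (mem_insert_of_mem _ ⟨b', hb', rfl⟩)))
  have hgt' : g B (c + T • v) > g B c - T ^ 2 :=
    lt_of_lt_of_le hval (hle b hzb.1 _)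
  rcases halt with h | ⟨htT', b', hb'1, hb'2⟩
  · rw [h] at hgt
    linarith
  have ht2 : t ^ 2 ≤ T ^ 2 := by gcongr
  refine ⟨c + t • v, by rw [hgt]; linarith, ?_, ?_, fun b hb => hkeep b (hActc b hb), b', hb'1,
    fun h => hb'2 (hActc b' h)⟩
  · rw [hgt]
    have := sq_nonneg t
    linarith
  · have : c + t • v - p = (c - p) + t • v := by abel
    rw [this]
    refine lt_of_le_of_lt (norm_add_le _ _) ?_
    rw [hcp, norm_smul, hv1, mul_one, Real.norm_eq_abs, abs_of_nonneg ht0]
    have : σ * (D + M) = σ * D + T := by rw [hT]; ring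
    linarith

end Pool.Agent.N242.KW
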