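import Pool.Agent.N242.KW.Stm

/-!
# Project HB (helper242), part GRD: greedy walk to a zero of `g` (helper749)
-/

set_option autoImplicit false

open Metric Set Filter Topology

namespace Pool.Agent.N242.KW.P749

open Pool.Agent.N242.KW

universe u

variable {H : Type u} [NormedAddCommGroup H] [InnerProductSpace ℝ H]

/-- The states of the walk. -/
structure Inv (B : Set (H × ℝ)) (x : H) (V : Submodule ℝ H) (y : H) (W : Submodule ℝ H) :
    Prop where
  fd : FiniteDimensional ℝ W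
  le : V ≤ W
  mem : y - x ∈ W
  ort : y - x ∈ Vᗮ
  pos : 0 < g B y
  act : ∀ b, Act B x b → Act B y b
  nrm : ‖y - x‖ ^ 2 = g B x - g B y

/-- One step of the walk. -/
structure Rel (B : Set (H × ℝ)) (y : H) (W : Submodule ℝ H) (y' : H) (W' : Submodule ℝ H) :
    Prop where
  le : W ≤ W'
  ort : y' - y ∈ Wᗮ
  nrm : ‖y' - y‖ ^ 2 = g B y - g B y'
  act : ∀ b, Act B y b → Act B y' b
  new : ∃ b, Act B y' b ∧ ¬ Act B y b

/-- A unit vector orthogonal to a finite-dimensional subspace. -/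
theorem unit_orth (hinf : ¬ FiniteDimensional ℝ H) (W : Submodule ℝ H)
    (hW : FiniteDimensional ℝ W) : ∃ v : H, ‖v‖ = 1 ∧ v ∈ Wᗮ := by
  have h1 : Wᗮ ≠ ⊥ := by
    intro h
    rw [Submodule.orthogonal_eq_bot_iff] at h
    apply hinf
    rw [h] at hW
    exact Module.Finite.equiv (Submodule.topEquiv (R := ℝ) (M := H))
  obtain ⟨w, hw, hw0⟩ := Submodule.exists_mem_ne_zero_of_ne_bot h1
  refine ⟨‖w‖⁻¹ • w, ?_, Submodule.smul_mem _ _ hw⟩
  rw [norm_smul, norm_inv, norm_norm, inv_mul_cancel₀ (norm_ne_zero_iff.2 hw0)]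

theorem sq_add_of_orth {a b : H} (h : inner ℝ a b = 0) : ‖a + b‖ ^ 2 = ‖a‖ ^ 2 + ‖b‖ ^ 2 := by
  rw [norm_add_sq_real, h]
  ring

theorem step [CompleteSpace H] (h1 : S_ACT.{u}) (h3 : S_STP.{u}) (B : Set (H × ℝ))
    (hinf : ¬ FiniteDimensional ℝ H) (hB : PF B) (x : H) (V : Submodule ℝ H)
    (hno : ¬ ∃ p : H, g B p = 0 ∧ (∀ b, Act B x b → Act B p b) ∧ ‖p - x‖ ^ 2 = g B x ∧
      p - x ∈ Vᗮ) (y : H) (W : Submodule ℝ H) (hs : Inv B x V y W) :
    ∃ (y' : H) (W' : Submodule ℝ H), Inv B x V y' W' ∧ Rel B y W y' W' := by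
  obtain ⟨-, -, -, -, hfin, -⟩ := h1 H B hB
  have hW := hs.fd
  set A : Set H := (fun b : H × ℝ => b.1 - y) '' {b | Act B y b} with hA
  have hAfin : A.Finite := (hfin y).image _
  have hspan : FiniteDimensional ℝ (Submodule.span ℝ A) := FiniteDimensional.span_of_finite ℝ hAfin
  have hsup : FiniteDimensional ℝ (W ⊔ Submodule.span ℝ A : Submodule ℝ H) := inferInstance
  obtain ⟨v, hv1, hv⟩ := unit_orth hinf _ hsup
  have hvW : ∀ w ∈ W, inner ℝ w v = 0 := fun w hw =>
    (Submodule.mem_orthogonal _ v).1 hv w (Submodule.mem_sup_left hw)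
  have hvA : ∀ b, Act B y b → inner ℝ v (b.1 - y) = 0 := by
    intro b hb
    rw [real_inner_comm]
    exact (Submodule.mem_orthogonal _ v).1 hv _
      (Submodule.mem_sup_right (Submodule.subset_span ⟨b, hb, rfl⟩))
  have hT : Real.sqrt (g B y) ^ 2 = g B y := Real.sq_sqrt hs.pos.le
  obtain ⟨t, ht0, htT, hact, hg, hor⟩ := h3 H B hB y v (Real.sqrt (g B y)) hv1
    (Real.sqrt_nonneg _) hT.le hvA
  have hyx : y + t • v - x = (y - x) + t • v := by abel
  have hyy : y + t • v - y = t • v := by abel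
  have htv : ‖t • v‖ ^ 2 = t ^ 2 := by
    rw [norm_smul, hv1, mul_one, Real.norm_eq_abs, sq_abs]
  have hn : ‖y + t • v - x‖ ^ 2 = g B x - g B (y + t • v) := by
    rw [hyx, sq_add_of_orth, hs.nrm, htv, hg]
    · ring
    · rw [inner_smul_right, hvW _ hs.mem, mul_zero]
  have hvV : v ∈ Vᗮ := (Submodule.mem_orthogonal _ v).2 fun w hw => hvW w (hs.le hw)
  have hVo : y + t • v - x ∈ Vᗮ := by
    rw [hyx]
    exact Submodule.add_mem _ hs.ort (Submodule.smul_mem _ _ hvV)
  have hall : ∀ b, Act B x b → Act B (y + t • v) b := fun b hb => hact b (hs.act b hb)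
  rcases hor with htT' | ⟨hlt, hnew⟩
  · exfalso
    apply hno
    have h0 : g B (y + t • v) = 0 := by
      rw [hg, htT', hT]
      ring
    refine ⟨y + t • v, h0, hall, ?_, hVo⟩
    rw [hn, h0, sub_zero]
  · have hpos : 0 < g B (y + t • v) := by
      rw [hg, sub_pos, ← hT]
      exact pow_lt_pow_left₀ hlt ht0 (by norm_num)
    refine ⟨y + t • v, W ⊔ Submodule.span ℝ {v}, ⟨?_, ?_, ?_, hVo, hpos, hall, hn⟩,
      ⟨le_sup_left, ?_, ?_, hact, hnew⟩⟩
    · infer_instance
    · exact hs.le.trans le_sup_left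
    · rw [hyx]
      exact Submodule.add_mem _ (Submodule.mem_sup_left hs.mem)
        (Submodule.smul_mem _ _ (Submodule.mem_sup_right (Submodule.mem_span_singleton_self v)))
    · rw [hyy]
      refine Submodule.smul_mem _ _ ?_
      exact (Submodule.mem_orthogonal _ v).2 hvW
    · rw [hyy, htv, hg]
      ring

/-- **(GRD)** -/
theorem t_GRD (h1 : S_ACT.{u}) (h2 : S_CON.{u}) (h3 : S_STP.{u}) : S_GRD.{u} := by
  intro H _ _ _ B hinf hB x V hV hx
  by_contra hno
  obtain ⟨-, -, hg0, -, hfin, -⟩ := h1 H B hB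
  obtain ⟨-, -, hcon⟩ := h2 H B hB
  have hstep := step h1 h3 B hinf hB x V hno
  -- the sequence of states
  have hs0 : Inv B x V x V := by
    refine ⟨hV, le_rfl, ?_, ?_, hx, fun b hb => hb, ?_⟩
    · rw [sub_self]; exact Submodule.zero_mem _
    · rw [sub_self]; exact Submodule.zero_mem _
    · rw [sub_self, norm_zero, sub_self]; norm_num
  have hstep' : ∀ s : {s : H × Submodule ℝ H // Inv B x V s.1 s.2},
      ∃ s' : {s : H × Submodule ℝ H // Inv B x V s.1 s.2}, Rel B s.1.1 s.1.2 s'.1.1 s'.1.2 := by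
    intro s
    obtain ⟨y', W', hi, hr⟩ := hstep s.1.1 s.1.2 s.2
    exact ⟨⟨(y', W'), hi⟩, hr⟩
  choose F hF using hstep'
  set s : ℕ → {s : H × Submodule ℝ H // Inv B x V s.1 s.2} :=
    fun n => F^[n] ⟨(x, V), hs0⟩ with hs
  have hrel : ∀ n, Rel B (s n).1.1 (s n).1.2 (s (n + 1)).1.1 (s (n + 1)).1.2 := by
    intro n
    have h4 : s (n + 1) = F (s n) := Function.iterate_succ_apply' F n _
    rw [h4]
    exact hF (s n)
  obtain ⟨y, hy⟩ : ∃ y : ℕ → H, y = fun n => (s n).1.1 := ⟨_, rfl⟩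
  obtain ⟨W, hW⟩ : ∃ W : ℕ → Submodule ℝ H, W = fun n => (s n).1.2 := ⟨_, rfl⟩
  have hinv : ∀ n, Inv B x V (y n) (W n) := by
    intro n
    rw [hy, hW]
    exact (s n).2
  have hrel' : ∀ n, Rel B (y n) (W n) (y (n + 1)) (W (n + 1)) := by
    intro n
    rw [hy, hW]
    exact hrel n
  have hWmono : Monotone W := monotone_nat_of_le_succ fun n => (hrel' n).le
  have hactmono : ∀ n m, n ≤ m → ∀ b, Act B (y n) b → Act B (y m) b := by
    intro n m hnm
    induction m, hnm using Nat.le_induction with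
    | base => exact fun b hb => hb
    | succ m _ ih => exact fun b hb => (hrel' m).act b (ih b hb)
  -- Pythagoras
  have hpy : ∀ n m, n ≤ m → ‖y m - y n‖ ^ 2 = g B (y n) - g B (y m) := by
    intro n m hnm
    induction m, hnm using Nat.le_induction with
    | base => rw [sub_self, norm_zero, sub_self]; norm_num
    | succ m hnm ih =>
      have h4 : y (m + 1) - y n = (y m - y n) + (y (m + 1) - y m) := by abel
      have h5 : y m - y n ∈ W m := by
        have h6 : y m - y n = (y m - x) - (y n - x) := by abel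
        rw [h6]
        exact Submodule.sub_mem _ (hinv m).mem (hWmono hnm (hinv n).mem)
      rw [h4, sq_add_of_orth ((Submodule.mem_orthogonal _ _).1 (hrel' m).ort _ h5), ih,
        (hrel' m).nrm]
      ring
  -- the values converge
  obtain ⟨a, ha⟩ : ∃ a : ℕ → ℝ, a = fun n => g B (y n) := ⟨_, rfl⟩
  have hanti : Antitone a := by
    intro n m hnm
    have h4 := hpy n m hnm
    have h5 : 0 ≤ ‖y m - y n‖ ^ 2 := sq_nonneg _
    rw [ha]
    show g B (y m) ≤ g B (y n)
    linarith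
  have hbdd : BddBelow (Set.range a) := by
    refine ⟨0, ?_⟩
    rintro _ ⟨n, rfl⟩
    rw [ha]
    exact hg0 _
  have hlim := tendsto_atTop_ciInf hanti hbdd
  have hcauchy : CauchySeq y := by
    rw [Metric.cauchySeq_iff']
    intro ε hε
    obtain ⟨N, hN⟩ := (Metric.cauchySeq_iff'.1 hlim.cauchySeq) (ε ^ 2) (by positivity)
    refine ⟨N, fun n hn => ?_⟩
    have h4 := hN n hn
    rw [Real.dist_eq] at h4
    have h5 := hpy N n hn
    have h6 : g B (y N) - g B (y n) < ε ^ 2 := by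
      have h7 := neg_abs_le (a n - a N)
      rw [ha] at h4 h7
      simp only at h4 h7
      linarith
    rw [dist_eq_norm]
    rw [← h5] at h6
    exact lt_of_pow_lt_pow_left₀ 2 hε.le h6
  obtain ⟨z, hz⟩ := cauchySeq_tendsto_of_complete hcauchy
  have hzact : ∀ n b, Act B (y n) b → Act B z b := by
    intro n b hb
    refine hcon y z b hz ?_
    filter_upwards [Filter.eventually_ge_atTop n] with m hm
    exact hactmono n m hm b hb
  have hcard : ∀ n, n ≤ ({b | Act B (y n) b} : Set (H × ℝ)).ncard := by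
    intro n
    induction n with
    | zero => exact Nat.zero_le _
    | succ n ih =>
      have h4 : ({b | Act B (y n) b} : Set (H × ℝ)) ⊂ {b | Act B (y (n + 1)) b} := by
        refine ⟨fun b hb => (hrel' n).act b hb, fun h5 => ?_⟩
        obtain ⟨b, hb, hb'⟩ := (hrel' n).new
        exact hb' (h5 hb)
      have h5 := Set.ncard_lt_ncard h4 (hfin _)
      omega
  have h4 := hcard (({b | Act B z b} : Set (H × ℝ)).ncard + 1)
  have h5 := Set.ncard_le_ncard (s := {b | Act B (y (({b | Act B z b} : Set (H × ℝ)).ncard + 1)) b})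
    (t := {b | Act B z b}) (fun b hb => hzact _ b hb) (hfin z)
  omega

end Pool.Agent.N242.KW.P749
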