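import Pool.Agent.N242.KW.Stm

/-! Project HB (helper242), part NRM (helper707): radius vectors almost orthogonal to `V`. -/

set_option autoImplicit false

open Metric Set Filter Topology

namespace Pool.Agent.N242.KW.P707

universe u

open Pool.Agent.N242.KW

theorem t_NRM (h1 : S_ACT.{u}) (h2 : S_BND.{u}) (h4 : S_AWY.{u}) : S_NRM.{u} := by
  intro H _ _ _ B hinf hB δ p ρ hδ hρ hp hyp
  obtain ⟨-, hact, -, hval, hfin, hconv⟩ := h1 H B hB
  obtain ⟨ρ₁, hρ₁, R, hR⟩ := h2 H B hB p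
  refine ⟨R, fun V hV ε hε => ?_⟩
  -- Step 1
  have step1 : ∀ ε > 0, ∃ z b, g B z = 0 ∧ ‖z - p‖ < ε ∧ Act B z b ∧ ‖z - b.1‖ = b.2 ∧
      δ ≤ b.2 ∧ b.2 < ‖p - b.1‖ := by
    intro ε hε
    obtain ⟨z', hz'0, hz'p, hz'b⟩ := h4 H B hinf hB p (min (ε / 2) ρ) (by positivity) hp
    have hev : ∀ᶠ e in 𝓝[>] (0:ℝ), ∀ b ∈ {b | Act B p b}, e < ‖z' - b.1‖ - b.2 := by
      rw [Filter.eventually_all_finite (hfin p)]
      intro b hb
      have h5 : 0 < ‖z' - b.1‖ - b.2 := sub_pos.2 (hz'b b hb)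
      filter_upwards [Ioo_mem_nhdsGT h5] with e he using he.2
    obtain ⟨e, he1, he2⟩ := (hev.and (Ioo_mem_nhdsGT (half_pos hε))).exists
    obtain ⟨z, hz0, hzz', b, hb, hδb⟩ :=
      hyp z' hz'0 (hz'p.trans_le (min_le_right _ _)) e he2.1
    have hbp := hB.pos b hb.1
    obtain ⟨hv1, -, -⟩ := hact z b hb
    have hnorm : ‖z - b.1‖ = b.2 := by
      rw [hz0] at hv1
      unfold val at hv1
      have h5 : ‖z - b.1‖ ^ 2 = b.2 ^ 2 := by linarith
      exact (pow_left_inj₀ (norm_nonneg _) hbp.le two_ne_zero).1 h5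
    have hnact : ¬ Act B p b := by
      intro hp'
      have h5 := he1 b hp'
      have h6 : ‖z' - b.1‖ ≤ ‖z' - z‖ + ‖z - b.1‖ := norm_sub_le_norm_sub_add_norm_sub _ _ _
      rw [norm_sub_rev z' z] at h6
      linarith
    have hlt : b.2 < ‖p - b.1‖ := by
      by_contra hle
      push Not at hle
      have h5 : 0 ≤ val b p := by
        unfold val
        nlinarith [norm_nonneg (p - b.1)]
      have h6 := hval b hb.1 p
      refine hnact (hconv p b hb.1 ?_)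
      rw [hp] at h6 ⊢
      linarith
    refine ⟨z, b, hz0, ?_, hb, hnorm, hδb, hlt⟩
    calc ‖z - p‖ ≤ ‖z - z'‖ + ‖z' - p‖ := norm_sub_le_norm_sub_add_norm_sub _ _ _
      _ < ε / 2 + ε / 2 := add_lt_add (hzz'.trans he2.2) (hz'p.trans_le (min_le_left _ _))
      _ = ε := by ring
  -- the sequence
  choose z b hz0 hzp hzb hzn hδb hbp using fun j : ℕ =>
    step1 (min (1 / ((j:ℝ) + 1)) (min ρ₁ ε)) (by positivity)
  have hzt : Tendsto z atTop (𝓝 p) :=
    tendsto_iff_norm_sub_tendsto_zero.2 (squeeze_zero (fun j => norm_nonneg _)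
      (fun j => (hzp j).le.trans (min_le_left _ _)) tendsto_one_div_add_atTop_nhds_zero_nat)
  have hbR : ∀ j, (b j).2 ≤ R := fun j =>
    (hR (z j) ((hzp j).trans_le ((min_le_right _ _).trans (min_le_left _ _))) (b j) (hzb j)).2
  have hzε : ∀ j, ‖z j - p‖ < ε := fun j =>
    (hzp j).trans_le ((min_le_right _ _).trans (min_le_right _ _))
  -- Step 2
  have step2 : ∀ (φ : ℕ → ℕ), StrictMono φ → ∀ b₀ : H × ℝ, ∀ᶠ k in atTop, b (φ k) ≠ b₀ := by
    intro φ hφ b₀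
    by_contra hcon
    have hfr : ∃ᶠ k in atTop, b (φ k) = b₀ := by
      intro h
      exact hcon h
    have ht : Tendsto (fun k => ‖z (φ k) - b₀.1‖) atTop (𝓝 ‖p - b₀.1‖) :=
      ((hzt.comp hφ.tendsto_atTop).sub_const b₀.1).norm
    have h5 : ‖p - b₀.1‖ ∈ ({b₀.2} : Set ℝ) :=
      isClosed_singleton.mem_of_frequently_of_tendsto
        (hfr.mono fun k hk => by
          rw [mem_singleton_iff, ← hk]
          exact hzn _) ht
    obtain ⟨k, hk⟩ := hfr.exists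
    have h6 := hbp (φ k)
    rw [hk, mem_singleton_iff.1 h5] at h6
    exact lt_irrefl _ h6
  -- Step 3
  by_contra hcon
  push Not at hcon
  have hnn : ∀ j, ‖(b j).1 - z j‖ = (b j).2 := fun j => by rw [norm_sub_rev, hzn]
  have hPb : ∀ j, ‖V.orthogonalProjectionOnto ((b j).1 - z j)‖ ≤ R := fun j =>
    (V.norm_orthogonalProjectionOnto_apply_le _).trans ((hnn j).le.trans (hbR j))
  have hin : ∀ (w : V) (n : H), inner ℝ (w : H) n =
      inner ℝ w (V.orthogonalProjectionOnto n) := fun w n => by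
    rw [← Submodule.inner_orthogonalProjectionOnto_eq_of_mem_left, Submodule.coe_inner]
  have hPε : ∀ j, ε ≤ ‖V.orthogonalProjectionOnto ((b j).1 - z j)‖ := by
    intro j
    obtain ⟨w, hw, hlt⟩ := hcon (z j) (b j) (hz0 j) (hzε j) (hzb j) (hzn j) (hδb j) (hbR j)
    have h5 := hin ⟨w, hw⟩ ((b j).1 - z j)
    have h6 : |inner ℝ w ((b j).1 - z j)| ≤
        ‖w‖ * ‖V.orthogonalProjectionOnto ((b j).1 - z j)‖ := by
      have h7 := abs_real_inner_le_norm (⟨w, hw⟩ : V) (V.orthogonalProjectionOnto ((b j).1 - z j))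
      rw [← h5] at h7
      exact h7
    have h8 : ε * ‖w‖ < ‖V.orthogonalProjectionOnto ((b j).1 - z j)‖ * ‖w‖ := by
      have h9 := hlt.trans_le h6
      rwa [mul_comm ‖w‖ ‖V.orthogonalProjectionOnto ((b j).1 - z j)‖] at h9
    exact (lt_of_mul_lt_mul_right h8 (norm_nonneg w)).le
  have : ProperSpace V := FiniteDimensional.proper ℝ V
  obtain ⟨w, -, φ, hφ, hw⟩ := (isCompact_closedBall (0 : V) R).tendsto_subseq
    (x := fun j => V.orthogonalProjectionOnto ((b j).1 - z j))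
    (fun j => mem_closedBall_zero_iff.2 (hPb j))
  have hwε : ε ≤ ‖w‖ := ge_of_tendsto' hw.norm fun k => hPε _
  have hwpos : 0 < ‖w‖ := hε.trans_le hwε
  have hzφ : Tendsto (fun k => z (φ k)) atTop (𝓝 p) := hzt.comp hφ.tendsto_atTop
  have t0 : Tendsto (fun k => ‖p - z (φ k)‖) atTop (𝓝 0) := by
    have h5 := (tendsto_iff_norm_sub_tendsto_zero.1 hzφ)
    refine h5.congr fun k => norm_sub_rev _ _
  have t1 : Tendsto (fun k => ‖p - z (φ k) + (w : H)‖ ^ 2) atTop (𝓝 (‖w‖ ^ 2)) := by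
    have h5 : Tendsto (fun k => p - z (φ k) + (w : H)) atTop (𝓝 (p - p + (w : H))) :=
      (tendsto_const_nhds.sub hzφ).add_const _
    rw [sub_self, zero_add] at h5
    exact h5.norm.pow 2
  have t2 : Tendsto (fun k => inner ℝ (p - z (φ k)) ((b (φ k)).1 - z (φ k))) atTop (𝓝 0) := by
    refine squeeze_zero_norm (a := fun k => ‖p - z (φ k)‖ * R) (fun k => ?_) ?_
    · rw [Real.norm_eq_abs]
      refine (abs_real_inner_le_norm _ _).trans (mul_le_mul_of_nonneg_left ?_ (norm_nonneg _))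
      rw [hnn]
      exact hbR _
    · have h5 := t0.mul_const R
      rwa [zero_mul] at h5
  have t3 : Tendsto (fun k => inner ℝ (w : H) ((b (φ k)).1 - z (φ k))) atTop (𝓝 (‖w‖ ^ 2)) := by
    have h5 : Tendsto (fun k => inner ℝ w (V.orthogonalProjectionOnto ((b (φ k)).1 - z (φ k))))
        atTop (𝓝 (inner ℝ w w)) := tendsto_const_nhds.inner hw
    rw [real_inner_self_eq_norm_sq] at h5
    exact h5.congr fun k => (hin w _).symm
  have hF : ∀ k, val (b (φ k)) (p + (w : H)) = -‖p - z (φ k) + (w : H)‖ ^ 2 +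
      2 * inner ℝ (p - z (φ k)) ((b (φ k)).1 - z (φ k)) +
      2 * inner ℝ (w : H) ((b (φ k)).1 - z (φ k)) := by
    intro k
    have e1 : p + (w : H) - (b (φ k)).1 = (p - z (φ k) + (w : H)) - ((b (φ k)).1 - z (φ k)) := by
      abel
    unfold val
    rw [e1, norm_sub_sq_real, hnn, inner_add_left]
    ring
  have hFt : Tendsto (fun k => val (b (φ k)) (p + (w : H))) atTop
      (𝓝 (-‖w‖ ^ 2 + 2 * 0 + 2 * ‖w‖ ^ 2)) := by
    have h5 := (t1.neg.add (t2.const_mul 2)).add (t3.const_mul 2)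
    exact h5.congr fun k => (hF k).symm
  have hlim : 0 < -‖w‖ ^ 2 + 2 * 0 + 2 * ‖w‖ ^ 2 := by
    have := pow_pos hwpos 2
    linarith
  obtain ⟨κ, hκd⟩ : ∃ κ : ℝ, κ = (-‖w‖ ^ 2 + 2 * 0 + 2 * ‖w‖ ^ 2) / 2 := ⟨_, rfl⟩
  have hκ : 0 < κ := by rw [hκd]; linarith
  have hlim' : κ < -‖w‖ ^ 2 + 2 * 0 + 2 * ‖w‖ ^ 2 := by rw [hκd]; linarith
  have hS := hB.kfin (p + (w : H)) κ hκ
  have hne : ∀ᶠ k in atTop, ∀ b₀ ∈ {b | b ∈ B ∧ κ ≤ val b (p + (w : H))}, b (φ k) ≠ b₀ :=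
    (Filter.eventually_all_finite hS).2 fun b₀ _ => step2 φ hφ b₀
  obtain ⟨k, hk1, hk2⟩ := (hne.and (hFt.eventually_const_lt hlim')).exists
  exact hk1 (b (φ k)) ⟨(hzb (φ k)).1, hk2.le⟩ rfl

end Pool.Agent.N242.KW.P707
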